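import Pool.Agent.H71.NU.Stmts

/-!
NU project: module CON: no decoder on a large set.
-/

namespace NU

open MeasureTheory

theorem CON_mem {Ω : Type} (t : L → Ω → Ω) (K : Set Ω) (n : ℕ) (ω : Ω) (h : Np t K n ω ≠ 0) :
    ω ∈ K := by
  classical
  by_contra hK
  apply h
  cases n with
  | zero => simp [Np, hK]
  | succ n => simp [Np, hK]

theorem CON_con (hPth : SPth) (hCnt : SCnt) (hGwt : SGwt) (hClu : SClu) (hDec : SDec)
    (hNum : SNum) (hTog : STog) : SCon := by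
  intro μ hμ K hK hKμ N I g r P key hD
  have := hμ.prob
  obtain ⟨k, m, hm, hlt⟩ := hNum N I g r
  set n : ℕ := 2 ^ k with hn
  have h1 := hPth Om μ T hTog.2.1 hμ.mp K hK hKμ k
  rw [← hn] at h1
  -- the labellings
  choose ℓ hℓ using fun c => hDec K N I g r P key hD n c
  set B : ℕ := g + r * n with hB
  set M : ℕ := I * N ^ (2 * B + 1) with hM
  have hsub : {ω | (15 : ℝ) ^ n / 2 ≤ (Np T K n ω : ℝ)} ⊆
      ⋃ c ∈ Finset.range M, {ω | m ≤ Z (n + 1) ω (ℓ c)} := by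
    intro ω hω
    have hω : (15 : ℝ) ^ n / 2 ≤ (Np T K n ω : ℝ) := hω
    have hpos : Np T K n ω ≠ 0 := by
      intro h0
      rw [h0] at hω
      have : (0 : ℝ) < 15 ^ n / 2 := by positivity
      simp only [Nat.cast_zero] at hω
      linarith
    have hωK := CON_mem T K n ω hpos
    rw [Set.mem_iUnion₂]
    refine ⟨key B ω, Finset.mem_range.2 (hD.key_lt B ω hωK), ?_⟩
    have h2 := hCnt Om T hTog.2.1 K n ω
    have h3 : (Kn T K n ω).ncard ≤ Z (n + 1) ω (ℓ (key B ω)) :=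
      hClu n ω (ℓ (key B ω)) _ (fun v hv => hv.2.1) (fun v hv u hu => hℓ _ ω rfl v hv u hu)
    have h4 : (m : ℝ) ≤ ((Kn T K n ω).ncard : ℝ) := by
      have h5 : (Np T K n ω : ℝ) ≤ 8 ^ n * ((Kn T K n ω).ncard : ℝ) := by exact_mod_cast h2
      have h6 : (15 : ℝ) ^ n / 2 ≤ 8 ^ n * ((Kn T K n ω).ncard : ℝ) := hω.trans h5
      have h7 : (15 / 8 : ℝ) ^ n / 2 ≤ ((Kn T K n ω).ncard : ℝ) := by
        rw [div_pow, div_div, mul_comm, ← div_div, div_le_iff₀ (by positivity)]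
        linarith
      exact hm.trans h7
    have h5 : m ≤ (Kn T K n ω).ncard := by exact_mod_cast h4
    exact h5.trans h3
  have h2 : μ.real {ω | (15 : ℝ) ^ n / 2 ≤ (Np T K n ω : ℝ)} ≤ (M : ℝ) * (2 / 2 ^ m) := by
    have h3 : μ {ω | (15 : ℝ) ^ n / 2 ≤ (Np T K n ω : ℝ)} ≤ (M : ENNReal) * (2 / 2 ^ m) := by
      calc μ {ω | (15 : ℝ) ^ n / 2 ≤ (Np T K n ω : ℝ)} ≤
            μ (⋃ c ∈ Finset.range M, {ω | m ≤ Z (n + 1) ω (ℓ c)}) := measure_mono hsub
        _ ≤ ∑ c ∈ Finset.range M, μ {ω | m ≤ Z (n + 1) ω (ℓ c)} := measure_biUnion_finset_le _ _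
        _ ≤ ∑ c ∈ Finset.range M, 2 / 2 ^ m :=
            Finset.sum_le_sum fun c _ => hGwt μ hμ (ℓ c) (n + 1) m
        _ = (M : ENNReal) * (2 / 2 ^ m) := by simp
    have h4 : (M : ENNReal) * (2 / 2 ^ m) ≠ ⊤ := by
      refine ENNReal.mul_ne_top (by simp) (ENNReal.div_ne_top (by simp) (by simp))
    have h5 := ENNReal.toReal_mono h4 h3
    simpa [Measure.real, ENNReal.toReal_mul, ENNReal.toReal_div] using h5
  have h3 := h1.trans h2
  exact absurd hlt (not_lt.2 h3)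

end NU
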