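import Pool.Agent.H71.NU.Stmts
import Pool.Agent.H47.MS.Base

/-!
NU project: module LAN: languages of minimal subshifts.
-/

namespace NU

open MeasureTheory MS MS.H47 TopologicalSpace

theorem LAN_open (w : List ℕ) (i : ℤ) : IsOpen {x : ℤ → ℕ | Occ w x i} := by
  have : {x : ℤ → ℕ | Occ w x i} = ⋂ j : Fin w.length, {x | x (i + (j : ℕ)) = w.get j} := by
    ext x
    simp [Occ]
  rw [this]
  refine isOpen_iInter_of_finite fun j => ?_
  exact (isOpen_discrete ({w.get j} : Set ℕ)).preimage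
    (f := fun x : ℤ → ℕ => x (i + ((j : ℕ) : ℤ))) (continuous_apply (i + ((j : ℕ) : ℤ)))

theorem LAN_sh (w : List ℕ) (x : ℤ → ℕ) (i : ℤ) : Occ w (sh i x) 0 ↔ Occ w x i := by
  unfold Occ
  refine forall_congr' fun j => ?_
  simp only [sh]
  rw [show (0 : ℤ) + ((j : ℕ) : ℤ) + i = i + ((j : ℕ) : ℤ) by ring]

/-- the word of `x` on `[-m, m]` -/
def LAN_word (x : ℤ → ℕ) (m : ℕ) : List ℕ := List.ofFn fun j : Fin (2 * m + 1) =>
  x (((j : ℕ) : ℤ) - m)

theorem LAN_occ (x y : ℤ → ℕ) (m : ℕ) (i : ℤ) :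
    Occ (LAN_word x m) y i ↔ ∀ j : ℤ, |j| ≤ m → y (i + m + j) = x j := by
  unfold Occ LAN_word
  constructor
  · intro h j hj
    obtain ⟨t, ht⟩ : ∃ t : ℕ, (t : ℤ) = j + m :=
      ⟨(j + m).toNat, Int.toNat_of_nonneg (by have := (abs_le.1 hj).1; omega)⟩
    have ht' : t < 2 * m + 1 := by have := (abs_le.1 hj).2; omega
    have h1 := h ⟨t, by simpa using ht'⟩
    simp only [List.get_eq_getElem, List.getElem_ofFn] at h1
    rw [show i + (m : ℤ) + j = i + (t : ℤ) by omega, h1]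
    congr 1
    omega
  · intro h j
    have hj : (j : ℕ) < 2 * m + 1 := by simpa using j.2
    have h1 := h (((j : ℕ) : ℤ) - m) (by rw [abs_le]; constructor <;> omega)
    rw [show i + (m : ℤ) + (((j : ℕ) : ℤ) - m) = i + ((j : ℕ) : ℤ) by ring] at h1
    rw [h1]
    simp only [List.get_eq_getElem, List.getElem_ofFn]

theorem LAN_sub (X Y : NC) (hX : IsMinSubshift X) (hY : IsMinSubshift Y)
    (h : ∀ w, lang X w → lang Y w) : ∀ x ∈ X, x ∈ Y := by
  intro x hx
  have hcl : x ∈ closure (Y : Set (ℤ → ℕ)) := by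
    rw [mem_closure_iff]
    intro O hO hxO
    obtain ⟨m, hm⟩ := exists_cyl hO hxO
    have h1 : lang X (LAN_word x m) := by
      refine ⟨sh (-(m : ℤ)) x, inv_sh hX.1 hx _, ?_⟩
      rw [LAN_sh, LAN_occ]
      intro j _
      congr 1
      ring
    obtain ⟨y, hy, ho⟩ := h _ h1
    rw [LAN_occ] at ho
    refine ⟨sh m y, hm ?_, inv_sh hY.1 hy _⟩
    intro j hj
    have := ho j hj
    simp only [sh]
    rw [← this]
    congr 1
    ring
  exact Y.isCompact.isClosed.closure_subset hcl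

theorem LAN_lan : SLan := by
  refine ⟨?_, ?_, ?_⟩
  · intro w
    have h1 : {X : NC | lang X w} = {X : NC | ((X : Set (ℤ → ℕ)) ∩ {x | Occ w x 0}).Nonempty} := by
      ext X
      rfl
    rw [h1]
    exact (NonemptyCompacts.isOpen_inter_nonempty_of_isOpen (LAN_open w 0)).measurableSet
  · intro X Y hX hY h
    ext x
    exact ⟨fun hx => LAN_sub X Y hX hY (fun w => (h w).1) x hx,
      fun hx => LAN_sub Y X hY hX (fun w => (h w).2) x hx⟩
  · intro X x i w hX hx ho
    exact ⟨sh i x, inv_sh hX.1 hx i, (LAN_sh w x i).2 ho⟩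

end NU
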