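import Pool.Agent.H71.NU.Stmts

/-!
NU project: module NUM: the numbers.
-/

namespace NU

theorem NUM_two (a : ℕ) : (a : ℝ) ≤ 2 ^ a := by
  have : a < 2 ^ a := Nat.lt_two_pow_self
  exact_mod_cast this.le

theorem NUM_aux (N I g r c j n : ℕ) (hc : c = I + N * (2 * (g + r) + 1) + 3)
    (hj8 : 8 * (c + 2) ≤ j) (hn : n = 2 * j) :
    ((I * N ^ (2 * (g + r * n) + 1) : ℕ) : ℝ) * (2 / 2 ^ ⌊(15 / 8 : ℝ) ^ n / 2⌋₊) <
      1 / 2 * (15 / 16) ^ n := by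
  obtain ⟨m, hm⟩ : ∃ m : ℕ, m = ⌊(15 / 8 : ℝ) ^ n / 2⌋₊ := ⟨_, rfl⟩
  rw [← hm]
  have hm1 : (15 / 8 : ℝ) ^ n / 2 < m + 1 := by rw [hm]; exact Nat.lt_floor_add_one _
  -- `m` is large
  have hbern : (1 + 7 / 8 * (j : ℝ)) ≤ (15 / 8 : ℝ) ^ j := by
    have := one_add_mul_le_pow (show (-2 : ℝ) ≤ 7 / 8 by norm_num) j
    calc (1 + 7 / 8 * (j : ℝ)) = 1 + (j : ℝ) * (7 / 8) := by ring
      _ ≤ (1 + 7 / 8) ^ j := this
      _ = (15 / 8) ^ j := by norm_num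
  have hsq : (1 + 7 / 8 * (j : ℝ)) ^ 2 ≤ (15 / 8 : ℝ) ^ n := by
    have h0 : (0 : ℝ) ≤ 1 + 7 / 8 * (j : ℝ) := by positivity
    calc (1 + 7 / 8 * (j : ℝ)) ^ 2 ≤ ((15 / 8 : ℝ) ^ j) ^ 2 := by gcongr
      _ = (15 / 8 : ℝ) ^ n := by rw [← pow_mul, hn, mul_comm]
  have hjr : (8 * (c + 2) : ℝ) ≤ j := by
    have : ((8 * (c + 2) : ℕ) : ℝ) ≤ (j : ℝ) := Nat.cast_le.2 hj8
    push_cast at this
    exact this
  have hc0 : (0 : ℝ) ≤ c := Nat.cast_nonneg c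
  have hml : ((c + 1) * n : ℝ) < m := by
    have h1 : (n : ℝ) = 2 * j := by rw [hn]; push_cast; ring
    rw [h1]
    nlinarith [hm1, hsq, hjr, hc0]
  have hmn : (c + 1) * n < m := by exact_mod_cast hml
  -- compare
  have hn1 : 1 ≤ n := by omega
  have h3 : I + N * (2 * (g + r * n) + 1) + 2 ≤ c * n := by
    have e2 : I ≤ I * n := Nat.le_mul_of_pos_right I hn1
    have e1 : g ≤ g * n := Nat.le_mul_of_pos_right g hn1
    have e3 : 2 * (g + r * n) + 1 ≤ (2 * (g + r) + 1) * n := by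
      calc 2 * (g + r * n) + 1 ≤ 2 * (g * n + r * n) + n := by omega
        _ = (2 * (g + r) + 1) * n := by ring
    have e4 : N * (2 * (g + r * n) + 1) ≤ N * ((2 * (g + r) + 1) * n) :=
      Nat.mul_le_mul_left N e3
    calc I + N * (2 * (g + r * n) + 1) + 2 ≤ I * n + N * ((2 * (g + r) + 1) * n) + 3 * n := by
          omega
      _ = c * n := by rw [hc]; ring
  have hIN : ((I * N ^ (2 * (g + r * n) + 1) : ℕ) : ℝ) * 4 ≤ 2 ^ (c * n) := by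
    have h1 : (I : ℝ) ≤ 2 ^ I := NUM_two I
    have h2 : (N : ℝ) ^ (2 * (g + r * n) + 1) ≤ 2 ^ (N * (2 * (g + r * n) + 1)) := by
      rw [pow_mul]
      have := NUM_two N
      gcongr
    calc ((I * N ^ (2 * (g + r * n) + 1) : ℕ) : ℝ) * 4
        = (I : ℝ) * (N : ℝ) ^ (2 * (g + r * n) + 1) * 2 ^ 2 := by push_cast; norm_num
      _ ≤ 2 ^ I * 2 ^ (N * (2 * (g + r * n) + 1)) * 2 ^ 2 := by gcongr
      _ = 2 ^ (I + N * (2 * (g + r * n) + 1) + 2) := by rw [← pow_add, ← pow_add]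
      _ ≤ 2 ^ (c * n) := pow_le_pow_right₀ (by norm_num) h3
  have h15 : (1 / 2 : ℝ) ^ n ≤ (15 / 16) ^ n :=
    pow_le_pow_left₀ (by norm_num) (by norm_num) n
  have h2m : (2 : ℝ) ^ ((c + 1) * n) < 2 ^ m := pow_lt_pow_right₀ (by norm_num) hmn
  have hpm : (0 : ℝ) < 2 ^ m := by positivity
  obtain ⟨R, hR⟩ : ∃ R : ℝ, R = ((I * N ^ (2 * (g + r * n) + 1) : ℕ) : ℝ) := ⟨_, rfl⟩
  rw [← hR] at hIN ⊢
  have h5 : R * 4 * 2 ^ n ≤ 2 ^ ((c + 1) * n) := by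
    rw [add_mul, one_mul, pow_add]
    gcongr
  have h2n : (2 : ℝ) ^ n ≠ 0 := by positivity
  calc R * (2 / 2 ^ m) = (R * 4 * 2 ^ n) / 2 ^ m * (1 / 2 * (1 / 2 : ℝ) ^ n) := by
        rw [one_div_pow]
        field_simp
        ring
    _ < 1 * (1 / 2 * (1 / 2 : ℝ) ^ n) := by
        apply mul_lt_mul_of_pos_right _ (by positivity)
        rw [div_lt_one hpm]
        exact lt_of_le_of_lt h5 h2m
    _ ≤ 1 / 2 * (15 / 16) ^ n := by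
        rw [one_mul]
        exact mul_le_mul_of_nonneg_left h15 (by norm_num)

theorem NUM_num : SNum := by
  intro N I g r
  obtain ⟨c, hc⟩ : ∃ c, c = I + N * (2 * (g + r) + 1) + 3 := ⟨_, rfl⟩
  obtain ⟨e, he⟩ : ∃ e, e = 8 * (c + 2) := ⟨_, rfl⟩
  refine ⟨e + 1, ⌊(15 / 8 : ℝ) ^ (2 ^ (e + 1)) / 2⌋₊, ?_, ?_⟩
  · exact Nat.floor_le (by positivity)
  · have h1 : 8 * (c + 2) ≤ 2 ^ e := by
      rw [← he]
      exact Nat.lt_two_pow_self.le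
    exact NUM_aux N I g r c (2 ^ e) (2 ^ (e + 1)) hc h1 (by rw [pow_succ]; ring)

end NU
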