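import Pool.Agent.H71.NU.FIN2
import Pool.Agent.H71.NU.CONN
import Pool.Agent.H71.NU.LAN
import Pool.Agent.H71.NU.NUM
import Pool.Agent.H45.NU.TOG
import Pool.Agent.H45.NU.BER
import Pool.Agent.H45.NU.PTH
import Pool.Agent.H22.NU.CNT
import Pool.Agent.H22.NU.REC
import Pool.Agent.H83.NU.GWT
import Pool.Agent.H83.NU.CLU
import Pool.Agent.H83.NU.DEC
import Pool.Agent.H12.NU.ORB
import Pool.Agent.H33.NU.DET
import Pool.Agent.H33.NU.COR
import Pool.Agent.H85.NU.BOU

/-!
NU project: all modules together.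
-/

namespace NU

theorem all : SFin2 := by
  have h1 : STog := sTog
  have h2 : SBer := sBer h1
  have h3 : SPth := sPth
  have h4 : SCnt := sCNT
  have h5 : SGwt := sGwt
  have h6 : SClu := sClu
  have h7 : SDec := sDec h1
  have h8 : SNum := NUM_num
  have h9 : SCon := CON_con h3 h4 h5 h6 h7 h8 h1
  have h10 : SOrb := sOrb h1
  have h11 : SDet := sDet
  have h12 : SLan := LAN_lan
  have h13 : SRec := sREC
  have h14 : SCor := sCor
  have h15 : SBou := sBou
  exact sFin2 h10 h2 (sGod2 (sWlab h15) h11 h12 h13 h14 h1 h15) h9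

end NU
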