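import Pool.Agent.H71.NU.GOD2

/-!
NU project: module FIN2: conjugacy of minimal subshifts is not weakly universal.
-/

namespace NU

open MeasureTheory MS

/-- there is a Borel homomorphism with countable fibres from `F` to `E` -/
def WeaklyReducible {A M : Type} [MeasurableSpace A] [MeasurableSpace M] (F : A → A → Prop)
    (E : M → M → Prop) : Prop :=
  ∃ θ : A → M, Measurable θ ∧ (∀ x y, F x y → E (θ x) (θ y)) ∧ ∀ z, {x | θ x = z}.Countable

/-- the statement of the theorem -/
def SFin2 : Prop :=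
  ∃ (A : Type) (_ : MeasurableSpace A) (_ : StandardBorelSpace A) (F : A → A → Prop),
    CBER F ∧ ¬ BorelReducible F (fun X Y : MM => Conj X Y) ∧
      ¬ WeaklyReducible F (fun X Y : MM => Conj X Y)

theorem sFin2 (hOrb : SOrb) (hBer : SBer) (hGod : SGod2) (hCon : SCon) : SFin2 := by
  obtain ⟨hstd, hcber⟩ := hOrb
  have key : ¬ WeaklyReducible (fun ω ω' : Om => ∃ l, act T l ω = ω')
      (fun X Y : MM => Conj X Y) := by
    rintro ⟨f, hf, hred, hfib⟩
    obtain ⟨μ, hμ⟩ := hBer
    obtain ⟨K, hKm, hKμ, N, I, g, r, P, key, hD⟩ := hGod μ hμ f hf hred hfib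
    exact hCon μ hμ K hKm hKμ N I g r P key hD
  refine ⟨Om, inferInstance, hstd, fun ω ω' : Om => ∃ l, act T l ω = ω', hcber, ?_, key⟩
  rintro ⟨f, hf, hred⟩
  refine key ⟨f, hf, fun x y h => (hred x y).1 h, fun z => ?_⟩
  by_cases hz : ∃ ω0, f ω0 = z
  · obtain ⟨ω0, rfl⟩ := hz
    refine (hcber.countable ω0).mono fun ω h => ?_
    have h : f ω = f ω0 := h
    refine (hred ω0 ω).2 ?_
    rw [h]
    exact ⟨Homeomorph.refl _, fun _ _ h => h⟩
  · have : {x | f x = z} = ∅ := by
      ext ω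
      simp only [Set.mem_ofPred_eq, Set.mem_empty_iff_false, iff_false]
      exact fun h => hz ⟨ω, h⟩
    rw [this]
    exact Set.countable_empty

end NU
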