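import Pool.Agent.H71.NU.WLAB

/-!
NU project: module GOD2: a homomorphism with countable fibres gives a decoder on a large set.
-/

namespace NU

open MeasureTheory MS

theorem GOD2_occ {w : List ℕ} {x x' : ℤ → ℕ} {i : ℤ} {g B m : ℕ} (hm : w.length ≤ m)
    (hi : |i| ≤ g) (hB : g + m ≤ B) (h : ∀ j : ℤ, |j| ≤ B → x j = x' j) (ho : Occ w x i) :
    Occ w x' i := by
  intro j
  rw [← ho j]
  symm
  apply h
  have h1 := j.2
  have h2 := abs_le.1 hi
  rw [abs_le]
  constructor <;> omega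

/-- GOD2: a homomorphism with countable fibres gives a decoder on a large set -/
def SGod2 : Prop := ∀ μ : Measure Om, IsBern μ → ∀ f : Om → MM, Measurable f →
  (∀ ω ω' : Om, (∃ l, act T l ω = ω') → Conj (f ω) (f ω')) →
  (∀ X, {ω | f ω = X}.Countable) →
  ∃ K : Set Om, MeasurableSet K ∧ μ Kᶜ ≤ 1 / 32 ∧
    ∃ (N I g r : ℕ) (P : ℕ → Om → Om → Prop) (key : ℕ → Om → ℕ), Decoder K N I g r P key

open Classical in
theorem sGod2 (hWlab : SWlab) (hDet : SDet) (hLan : SLan) (hRec : SRec) (hCor : SCor)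
    (hTog : STog) (hBou : SBou) : SGod2 := by
  intro μ hμ f hf hred hfib
  have := hμ.prob
  have : StandardBorelSpace Om := inferInstance
  obtain ⟨Φ, ρ, hΦ1, hΦ2, hΦ3⟩ := hCor
  have hf' : Measurable fun ω => (f ω : NC) := measurable_subtype_coe.comp hf
  -- the language
  set Λ : Om → List ℕ → Bool := fun ω w => decide (lang (f ω) w) with hΛ
  have hΛm : Measurable Λ := by
    refine measurable_pi_lambda _ fun w => measurable_to_bool ?_
    have : (fun ω => Λ ω w) ⁻¹' {true} = (fun ω => (f ω : NC)) ⁻¹' {X : NC | lang X w} := by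
      ext ω
      simp [hΛ]
    rw [this]
    exact hf' (hLan.1 w)
  have hΛE : ∀ y, {ω | Λ ω = y}.Countable := by
    intro y
    by_cases hy : ∃ ω0, Λ ω0 = y
    · obtain ⟨ω0, rfl⟩ := hy
      refine (hfib (f ω0)).mono fun ω h => ?_
      have h : Λ ω = Λ ω0 := h
      refine Subtype.ext (hLan.2.1 _ _ (f ω).2 (f ω0).2 fun w => ?_)
      have := congrFun h w
      simpa [hΛ] using this
    · have : {ω | Λ ω = y} = ∅ := by
        ext ω
        simp only [Set.mem_ofPred_eq, Set.mem_empty_iff_false, iff_false]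
        exact fun h => hy ⟨ω, h⟩
      rw [this]
      exact Set.countable_empty
  obtain ⟨B, hBm, hBμ, ψ, hψm, hψ⟩ := hWlab Om μ Λ hΛm hΛE (1 / 128) (by simp)
  -- the codes
  have hκex : ∀ s ω, ∃ k, ∀ x ∈ (f ω : NC), Φ k x ∈ (f (T s ω) : NC) := by
    intro s ω
    exact hΦ2 _ _ (f ω).2 (f (T s ω)).2 (hred _ _ ⟨[s], rfl⟩)
  set κ : L → Om → ℕ := fun s ω => Nat.find (hκex s ω) with hκ
  have hκs : ∀ s ω, ∀ x ∈ (f ω : NC), Φ (κ s ω) x ∈ (f (T s ω) : NC) :=
    fun s ω => Nat.find_spec (hκex s ω)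
  have hκm : ∀ s, Measurable (κ s) := by
    intro s
    refine measurable_find (hκex s) fun k => ?_
    have h1 : Measurable fun ω => ((f ω : NC), (f (T s ω) : NC)) :=
      hf'.prodMk (hf'.comp (hTog.2.2.1 s))
    exact h1 (hΦ3 k)
  -- the data
  set D0 : Om → Q × (L → ℕ) × (L → ℕ) := fun ω => (ω [], fun s => κ s ω, fun s => ψ (T s ω))
    with hD0
  have hD0m : Measurable D0 := by
    refine (measurable_pi_apply _).prodMk (Measurable.prodMk ?_ ?_)
    · exact measurable_pi_lambda _ fun s => hκm s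
    · exact measurable_pi_lambda _ fun s => hψm.comp (hTog.2.2.1 s)
  set D : Om → ℕ := fun ω => Encodable.encode (D0 ω) with hD
  have hDm : Measurable D := Measurable.comp (Measurable.of_discrete) hD0m
  obtain ⟨K1, hK1B, hK1m, hK1μ, W, hW⟩ := hDet Om μ Λ ψ D B hΛm hψm hDm hBm hψ (1 / 128)
    (by simp)
  -- the bounds
  set G : ℕ → Set Om := fun n => {ω | ψ ω < n} ∩ (⋂ s, {ω | κ s ω < n}) ∩
    {ω | ∀ x ∈ (f ω : NC), ∀ i, x i < n} ∩
    ⋂ w ∈ W, ({ω | lang (f ω) w}ᶜ ∪ {ω | ∀ x ∈ (f ω : NC), ∃ i : ℤ, |i| ≤ (n : ℤ) ∧ Occ w x i})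
    with hG
  have hGm : ∀ n, MeasurableSet (G n) := by
    intro n
    refine MeasurableSet.inter (MeasurableSet.inter (MeasurableSet.inter ?_ ?_) ?_) ?_
    · exact hψm (MeasurableSet.of_discrete (s := Set.Iio n))
    · exact MeasurableSet.iInter fun s => hκm s (MeasurableSet.of_discrete (s := Set.Iio n))
    · exact hf' (hRec.2.2.1 n)
    · refine Finset.measurableSet_biInter _ fun w _ => MeasurableSet.union ?_ ?_
      · exact (hf' (hLan.1 w)).compl
      · exact hf' (hRec.1 w n)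
  have hGmono : ∀ n, G n ⊆ G (n + 1) := by
    intro n ω hω
    obtain ⟨⟨⟨h1, h2⟩, h3⟩, h4⟩ := hω
    refine ⟨⟨⟨lt_trans h1 (Nat.lt_succ_self n), ?_⟩, ?_⟩, ?_⟩
    · rw [Set.mem_iInter] at h2 ⊢
      exact fun s => lt_trans (h2 s) (Nat.lt_succ_self n)
    · exact fun x hx i => lt_trans (h3 x hx i) (Nat.lt_succ_self n)
    · rw [Set.mem_iInter₂] at h4 ⊢
      intro w hw
      rcases h4 w hw with h | h
      · exact Or.inl h
      · refine Or.inr fun x hx => ?_
        obtain ⟨i, hi, ho⟩ := h x hx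
        exact ⟨i, hi.trans (by push_cast; omega), ho⟩
  have hGall : ∀ ω, ∃ n, ω ∈ G n := by
    intro ω
    obtain ⟨n3, h3⟩ := hRec.2.2.2 (f ω) (f ω).2
    have h4 : ∀ w : List ℕ, ∃ g : ℕ, lang (f ω) w →
        ∀ x ∈ (f ω : NC), ∃ i : ℤ, |i| ≤ g ∧ Occ w x i := by
      intro w
      by_cases h : lang (f ω) w
      · obtain ⟨g, hg⟩ := hRec.2.1 (f ω) w (f ω).2 h
        exact ⟨g, fun _ => hg⟩
      · exact ⟨0, fun h' => absurd h' h⟩
    choose gw hgw using h4
    refine ⟨(ψ ω + 1) + (∑ s, (κ s ω + 1)) + n3 + ∑ w ∈ W, gw w, ⟨⟨⟨?_, ?_⟩, ?_⟩, ?_⟩⟩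
    · change ψ ω < _
      omega
    · rw [Set.mem_iInter]
      intro s
      have : κ s ω + 1 ≤ ∑ s, (κ s ω + 1) :=
        Finset.single_le_sum (f := fun s => κ s ω + 1) (fun _ _ => Nat.zero_le _)
          (Finset.mem_univ s)
      change κ s ω < _
      omega
    · intro x hx i
      have := h3 x hx i
      omega
    · rw [Set.mem_iInter₂]
      intro w hw
      by_cases h : lang (f ω) w
      · refine Or.inr fun x hx => ?_
        obtain ⟨i, hi, ho⟩ := hgw w h x hx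
        have : gw w ≤ ∑ w ∈ W, gw w :=
          Finset.single_le_sum (f := gw) (fun _ _ => Nat.zero_le _) hw
        exact ⟨i, hi.trans (Int.ofNat_le.2 (by omega)), ho⟩
      · exact Or.inl h
  obtain ⟨n, hn⟩ := hBou Om μ G hGm hGmono hGall (1 / 128) (by simp)
  set K : Set Om := K1 ∩ G n with hK
  have hKμ : μ Kᶜ ≤ 1 / 32 := by
    have h1 : Kᶜ ⊆ Bᶜ ∪ (B \ K1) ∪ (G n)ᶜ := by
      intro ω hω
      by_cases h1 : ω ∈ B
      · by_cases h2 : ω ∈ K1
        · by_cases h3 : ω ∈ G n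
          · exact absurd ⟨h2, h3⟩ hω
          · exact Or.inr h3
        · exact Or.inl (Or.inr ⟨h1, h2⟩)
      · exact Or.inl (Or.inl h1)
    calc μ Kᶜ ≤ μ (Bᶜ ∪ (B \ K1) ∪ (G n)ᶜ) := measure_mono h1
      _ ≤ μ Bᶜ + μ (B \ K1) + μ (G n)ᶜ :=
          (measure_union_le _ _).trans (by gcongr; exact measure_union_le _ _)
      _ ≤ 1 / 128 + 1 / 128 + 1 / 128 := by gcongr
      _ ≤ 1 / 32 := by
          have e : (1 : ENNReal) / 32 = 1 / 128 + 1 / 128 + 1 / 128 + 1 / 128 := by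
            rw [← ENNReal.toReal_eq_toReal_iff' (by simp) (by simp)]
            rw [ENNReal.toReal_add (by simp) (by simp), ENNReal.toReal_add (by simp) (by simp),
              ENNReal.toReal_add (by simp) (by simp)]
            simp only [ENNReal.toReal_div, ENNReal.toReal_one, ENNReal.toReal_ofNat]
            norm_num
          rw [e]
          exact le_self_add
  -- points and constants
  have hpt : ∀ ω, ∃ x, x ∈ (f ω : NC) := fun ω => (f ω : NC).nonempty
  choose pt hpt using hpt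
  set r : ℕ := ∑ k ∈ Finset.range n, ρ k with hr
  have hρ : ∀ k < n, ρ k ≤ r := fun k hk =>
    Finset.single_le_sum (f := ρ) (fun _ _ => Nat.zero_le _) (Finset.mem_range.2 hk)
  set m : ℕ := ∑ w ∈ W, w.length with hm
  have hmW : ∀ w ∈ W, w.length ≤ m := fun w hw =>
    Finset.single_le_sum (f := fun w : List ℕ => w.length) (fun _ _ => Nat.zero_le _) hw
  set P : ℕ → Om → Om → Prop := fun b ω ω' => ψ ω = ψ ω' ∧
    ∃ x ∈ (f ω : NC), ∃ x' ∈ (f ω' : NC), ∀ i : ℤ, |i| ≤ (b : ℤ) → x i = x' i with hP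
  -- the data agree
  have hdata : ∀ b, n + m + r ≤ b → ∀ ω ∈ K, ∀ ω' ∈ K, P b ω ω' → D0 ω = D0 ω' := by
    intro b hb ω hω ω' hω' h
    obtain ⟨h1, x, hx, x', hx', hxx⟩ := h
    have h2 : ∀ w ∈ W, Λ ω w = Λ ω' w := by
      intro w hw
      have key : ∀ (ω ω' : Om), ω ∈ K → ∀ x ∈ (f ω : NC), ∀ x' ∈ (f ω' : NC),
          (∀ i : ℤ, |i| ≤ (b : ℤ) → x i = x' i) → lang (f ω) w → lang (f ω') w := by
        intro ω ω' hω x hx x' hx' hxx hl
        have h4 := hω.2.2
        rw [Set.mem_iInter₂] at h4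
        rcases h4 w hw with h | h
        · exact absurd hl h
        · obtain ⟨i, hi, ho⟩ := h x hx
          exact hLan.2.2 (f ω') x' i w (f ω').2 hx'
            (GOD2_occ (hmW w hw) hi (by omega) hxx ho)
      have h3 : lang (f ω) w ↔ lang (f ω') w :=
        ⟨key ω ω' hω x hx x' hx' hxx,
          key ω' ω hω' x' hx' x hx fun i hi => (hxx i hi).symm⟩
      simp only [hΛ, h3]
    have h3 : D ω = D ω' := hW ω hω.1 ω' hω'.1 h2 h1
    exact Encodable.encode_injective h3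
  have hcard : ∀ b : ℕ, Fintype.card (Fin n × (Fin (2 * b + 1) → Fin n)) = n * n ^ (2 * b + 1) := by
    intro b
    simp [Fintype.card_prod]
  set key : ℕ → Om → ℕ := fun b ω => if hω : ω ∈ K then
    (Fintype.equivFinOfCardEq (hcard b) (⟨ψ ω, hω.2.1.1.1⟩,
      fun j => ⟨pt ω (((j : ℕ) : ℤ) - b), hω.2.1.2 (pt ω) (hpt ω) _⟩)).val else 0 with hkey
  refine ⟨K, hK1m.inter (hGm n), hKμ, n, n, n + m + r, r, P, key, ?_, ?_, ?_, ?_⟩
  · intro b ω hω
    simp only [hkey, dif_pos hω]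
    exact Fin.is_lt _
  · intro b ω hω ω' hω' h
    simp only [hkey, dif_pos hω, dif_pos hω'] at h
    have h1 := (Fintype.equivFinOfCardEq (hcard b)).injective (Fin.ext h)
    rw [Prod.mk.injEq] at h1
    obtain ⟨h2, h3⟩ := h1
    refine ⟨by simpa using h2, pt ω, hpt ω, pt ω', hpt ω', fun i hi => ?_⟩
    obtain ⟨t, ht⟩ : ∃ t : ℕ, (t : ℤ) = i + b :=
      ⟨(i + b).toNat, Int.toNat_of_nonneg (by have := (abs_le.1 hi).1; omega)⟩
    have ht' : t < 2 * b + 1 := by have := (abs_le.1 hi).2; omega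
    have h4 := congrFun h3 ⟨t, ht'⟩
    simp only [Fin.mk.injEq, ht, add_sub_cancel_right] at h4
    exact h4
  · intro b hb ω hω ω' hω' h
    have := hdata b hb ω hω ω' hω' h
    exact congrArg Prod.fst this
  · intro b hb ω hω ω' hω' h s
    have h0 := hdata b hb ω hω ω' hω' h
    obtain ⟨h1, x, hx, x', hx', hxx⟩ := h
    have hk : κ s ω = κ s ω' := congrFun (congrArg (fun p => p.2.1) h0) s
    have hps : ψ (T s ω) = ψ (T s ω') := congrFun (congrArg (fun p => p.2.2) h0) s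
    refine ⟨hps, Φ (κ s ω) x, hκs s ω x hx, Φ (κ s ω) x', ?_, ?_⟩
    · rw [hk]
      exact hκs s ω' x' hx'
    · intro i hi
      apply hΦ1
      intro j hj
      apply hxx
      have h5 : κ s ω < n := by
        have := hω.2.1.1.2
        rw [Set.mem_iInter] at this
        exact this s
      have h6 := hρ _ h5
      have h7 := abs_le.1 hi
      have h8 := abs_le.1 hj
      rw [abs_le]
      constructor <;> omega

end NU
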