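import Pool.Agent.H27.MS.Stmts

/-!
# Topological conjugacy of minimal subshifts is not universal: definitions and module statements

`Om` is the space of labellings of all lists over a set of 16 letters by `Fin 131072`; the letter
`s` acts on lists by the involution `tog s` (it adds or deletes a first letter `s` of a reduced
list, and it fixes the lists which are not reduced), and on `Om` by `T s`.  A Borel reduction of
the orbit relation of `T` to conjugacy of minimal subshifts is impossible: by minimality one word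
of linear length of `f ω` decodes `ω` on a set of vertices of exponential size.
-/

namespace NU

open MeasureTheory MS

/-- letters -/
abbrev L : Type := Fin 16

/-- labels -/
abbrev Q : Type := Fin 131072

/-- the probability space: labellings of the lists of letters -/
abbrev Om : Type := List L → Q

/-- reduced lists: adjacent letters are different -/
def Red (l : List L) : Prop := l.IsChain (· ≠ ·)

open Classical in
/-- toggle a first letter `s` of a reduced list -/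
noncomputable def tog (s : L) (l : List L) : List L :=
  if Red l then (if l.head? = some s then l.tail else s :: l) else l

/-- the involutions of `Om` -/
noncomputable def T (s : L) (ω : Om) : Om := fun l => ω (tog s l)

/-- apply the involutions `t s` for `s ∈ l`, the first letter of `l` first -/
def act {Ω : Type} (t : L → Ω → Ω) : List L → Ω → Ω
  | [], ω => ω
  | s :: l, ω => act t l (t s ω)

/-- the path of `ω` along `l` stays in `K` -/
def Good {Ω : Type} (t : L → Ω → Ω) (K : Set Ω) : List L → Ω → Prop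
  | [], ω => ω ∈ K
  | s :: l, ω => ω ∈ K ∧ Good t K l (t s ω)

open Classical in
/-- the number of paths of length `n` from `ω` which stay in `K` -/
noncomputable def Np {Ω : Type} (t : L → Ω → Ω) (K : Set Ω) : ℕ → Ω → ℕ
  | 0, ω => if ω ∈ K then 1 else 0
  | n + 1, ω => if ω ∈ K then ∑ s, Np t K n (t s ω) else 0

/-- reduced lists of length at most `n` whose path stays in `K` -/
def Kn {Ω : Type} (t : L → Ω → Ω) (K : Set Ω) (n : ℕ) (ω : Ω) : Set (List L) :=
  {v | Red v ∧ v.length ≤ n ∧ Good t K v ω}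

/-- the size of the agreement cluster of the root of `ω` and `ℓ` in the lists of length `< n` -/
def Z : ℕ → Om → Om → ℕ
  | 0, _, _ => 0
  | n + 1, ω, ℓ => if ω [] = ℓ [] then 1 + ∑ s, Z n (fun l => ω (s :: l)) (fun l => ℓ (s :: l))
      else 0

/-- the measures used: invariance, and independence of the root label and the 16 subtrees -/
structure IsBern (μ : Measure Om) : Prop where
  prob : IsProbabilityMeasure μ
  mp : ∀ s, MeasurePreserving (T s) μ μ
  indep : ∀ (h : Q → ENNReal) (k : L → Om → ENNReal), (∀ s, Measurable (k s)) →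
    ∫⁻ ω, h (ω []) * ∏ s, k s (fun l => ω (s :: l)) ∂μ =
      ((∑ a, h a) / 131072) * ∏ s, ∫⁻ ω, k s ω ∂μ

/-- What a reduction gives: `P B ω ω'` (windows `[-B, B]` of points of `f ω` and `f ω'` agree,
and the labels agree), and `key B ω` (a window and the label) -/
structure Decoder (K : Set Om) (N I g r : ℕ) (P : ℕ → Om → Om → Prop) (key : ℕ → Om → ℕ) :
    Prop where
  key_lt : ∀ B, ∀ ω ∈ K, key B ω < I * N ^ (2 * B + 1)
  key_eq : ∀ B, ∀ ω ∈ K, ∀ ω' ∈ K, key B ω = key B ω' → P B ω ω'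
  root : ∀ B, g ≤ B → ∀ ω ∈ K, ∀ ω' ∈ K, P B ω ω' → ω [] = ω' []
  step : ∀ B, g ≤ B → ∀ ω ∈ K, ∀ ω' ∈ K, P B ω ω' → ∀ s, P (B - r) (T s ω) (T s ω')

/-- `w` occurs in `x` at place `i` -/
def Occ (w : List ℕ) (x : ℤ → ℕ) (i : ℤ) : Prop := ∀ j : Fin w.length, x (i + (j : ℕ)) = w.get j

/-- `w` is a word of `X` -/
def lang (X : NC) (w : List ℕ) : Prop := ∃ x ∈ X, Occ w x 0

/-! ### the modules -/

/-- TOG: elementary properties of the involutions of lists and of `Om` -/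
def STog : Prop :=
  (∀ s, Function.Involutive (tog s)) ∧ (∀ s, Function.Involutive (T s)) ∧
  (∀ s, Measurable (T s)) ∧ (∀ v ω, Red v → act T v ω [] = ω v)

/-- BER: a measure with `IsBern` exists (product measure) -/
def SBer : Prop := ∃ μ : Measure Om, IsBern μ

/-- PTH: many good paths with a probability which is not too small -/
def SPth : Prop := ∀ (Ω : Type) [MeasurableSpace Ω] (μ : Measure Ω) [IsProbabilityMeasure μ]
  (t : L → Ω → Ω), (∀ s, Function.Involutive (t s)) → (∀ s, MeasurePreserving (t s) μ μ) →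
  ∀ K : Set Ω, MeasurableSet K → μ Kᶜ ≤ 1 / 32 → ∀ k : ℕ,
    (1 / 2 : ℝ) * (15 / 16) ^ (2 ^ k) ≤
      μ.real {ω | (15 : ℝ) ^ (2 ^ k) / 2 ≤ (Np t K (2 ^ k) ω : ℝ)}

/-- CNT: a good path ends at a vertex of `Kn`, and a vertex is hit by at most `8 ^ n` paths -/
def SCnt : Prop := ∀ (Ω : Type) (t : L → Ω → Ω), (∀ s, Function.Involutive (t s)) →
  ∀ (K : Set Ω) (n : ℕ) (ω : Ω), Np t K n ω ≤ 8 ^ n * (Kn t K n ω).ncard

/-- GWT: the agreement cluster is subcritical -/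
def SGwt : Prop := ∀ μ : Measure Om, IsBern μ → ∀ (ℓ : Om) (n m : ℕ),
  μ {ω | m ≤ Z n ω ℓ} ≤ 2 / 2 ^ m

/-- CLU: sets of lists on which the labellings agree, with all prefixes, are in the cluster -/
def SClu : Prop := ∀ (n : ℕ) (ω ℓ : Om) (A : Set (List L)), (∀ v ∈ A, v.length ≤ n) →
  (∀ v ∈ A, ∀ u, u <+: v → ω u = ℓ u) → A.ncard ≤ Z (n + 1) ω ℓ

/-- DEC: a key decodes the labelling on the good vertices -/
def SDec : Prop := ∀ (K : Set Om) (N I g r : ℕ) (P : ℕ → Om → Om → Prop) (key : ℕ → Om → ℕ),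
  Decoder K N I g r P key → ∀ n c : ℕ, ∃ ℓ : Om, ∀ ω, key (g + r * n) ω = c →
    ∀ v ∈ Kn T K n ω, ∀ u, u <+: v → ω u = ℓ u

/-- NUM: the numbers -/
def SNum : Prop := ∀ N I g r : ℕ, ∃ k m : ℕ, (m : ℝ) ≤ (15 / 8) ^ (2 ^ k) / 2 ∧
  ((I * N ^ (2 * (g + r * 2 ^ k) + 1) : ℕ) : ℝ) * (2 / 2 ^ m) < 1 / 2 * (15 / 16) ^ (2 ^ k)

/-- CON: there is no decoder on a large set -/
def SCon : Prop := ∀ μ : Measure Om, IsBern μ → ∀ K : Set Om, MeasurableSet K → μ Kᶜ ≤ 1 / 32 →
  ∀ (N I g r : ℕ) (P : ℕ → Om → Om → Prop) (key : ℕ → Om → ℕ), ¬ Decoder K N I g r P key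

/-- ORB: the orbit relation is a countable Borel equivalence relation -/
def SOrb : Prop := StandardBorelSpace Om ∧ CBER (fun ω ω' : Om => ∃ l, act T l ω = ω')

/-- LAB: labels for a countable-to-one map -/
def SLab : Prop := ∀ (Ω : Type) [MeasurableSpace Ω] [StandardBorelSpace Ω] (μ : Measure Ω)
  [IsProbabilityMeasure μ] (a : ℕ → Ω → Ω), (∀ j, Measurable (a j)) →
  (∀ j, Function.Injective (a j)) → ∀ Λ : Ω → List ℕ → Bool, Measurable Λ →
  (∀ ω ω', Λ ω = Λ ω' → ∃ j, a j ω = ω') → ∀ ε : ENNReal, 0 < ε →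
  ∃ B : Set Ω, MeasurableSet B ∧ μ Bᶜ ≤ ε ∧ ∃ ψ : Ω → ℕ, Measurable ψ ∧
    ∀ ω ∈ B, ∀ ω' ∈ B, Λ ω = Λ ω' → ψ ω = ψ ω' → ω = ω'

/-- DET: measurable data are determined by finitely many tests, up to a small set -/
def SDet : Prop := ∀ (Ω : Type) [MeasurableSpace Ω] [StandardBorelSpace Ω] (μ : Measure Ω)
  [IsProbabilityMeasure μ] (Λ : Ω → List ℕ → Bool) (ψ D : Ω → ℕ) (B : Set Ω), Measurable Λ →
  Measurable ψ → Measurable D → MeasurableSet B →
  (∀ ω ∈ B, ∀ ω' ∈ B, Λ ω = Λ ω' → ψ ω = ψ ω' → ω = ω') → ∀ ε : ENNReal, 0 < ε →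
  ∃ K ⊆ B, MeasurableSet K ∧ μ (B \ K) ≤ ε ∧ ∃ W : Finset (List ℕ),
    ∀ ω ∈ K, ∀ ω' ∈ K, (∀ w ∈ W, Λ ω w = Λ ω' w) → ψ ω = ψ ω' → D ω = D ω'

/-- LAN: languages of minimal subshifts -/
def SLan : Prop :=
  (∀ w, MeasurableSet {X : NC | lang X w}) ∧
  (∀ X Y : NC, IsMinSubshift X → IsMinSubshift Y → (∀ w, lang X w ↔ lang Y w) → X = Y) ∧
  (∀ (X : NC) x i w, IsMinSubshift X → x ∈ X → Occ w x i → lang X w)

/-- REC: recurrence, bounded letters -/
def SRec : Prop :=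
  (∀ (w : List ℕ) (g : ℕ), MeasurableSet {X : NC | ∀ x ∈ X, ∃ i : ℤ, |i| ≤ g ∧ Occ w x i}) ∧
  (∀ (X : NC) (w : List ℕ), IsMinSubshift X → lang X w →
    ∃ g : ℕ, ∀ x ∈ X, ∃ i : ℤ, |i| ≤ g ∧ Occ w x i) ∧
  (∀ N : ℕ, MeasurableSet {X : NC | ∀ x ∈ X, ∀ i, x i < N}) ∧
  (∀ X : NC, IsMinSubshift X → ∃ N : ℕ, ∀ x ∈ X, ∀ i, x i < N)

/-- COR: a countable family of block codes with radii -/
def SCor : Prop := ∃ (Φ : ℕ → (ℤ → ℕ) → (ℤ → ℕ)) (ρ : ℕ → ℕ),
  (∀ k x x' (i : ℤ), (∀ j : ℤ, |j - i| ≤ ρ k → x j = x' j) → Φ k x i = Φ k x' i) ∧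
  (∀ X Y : NC, IsMinSubshift X → IsMinSubshift Y → Conj X Y → ∃ k, ∀ x ∈ X, Φ k x ∈ Y) ∧
  (∀ k, MeasurableSet {p : NC × NC | ∀ x ∈ p.1, Φ k x ∈ p.2})

/-- the space of minimal subshifts -/
abbrev MM : Type := {X : NC // IsMinSubshift X}

/-- GOD: a reduction gives a decoder on a large set -/
def SGod : Prop := ∀ μ : Measure Om, IsBern μ → ∀ f : Om → MM, Measurable f →
  (∀ ω ω' : Om, (∃ l, act T l ω = ω') ↔ Conj (f ω) (f ω')) →
  ∃ K : Set Om, MeasurableSet K ∧ μ Kᶜ ≤ 1 / 32 ∧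
    ∃ (N I g r : ℕ) (P : ℕ → Om → Om → Prop) (key : ℕ → Om → ℕ), Decoder K N I g r P key

/-- BOU: an abstract consequence used in GOD: increasing bounds hold up to a small set -/
def SBou : Prop := ∀ (Ω : Type) [MeasurableSpace Ω] (μ : Measure Ω) [IsProbabilityMeasure μ]
  (G : ℕ → Set Ω), (∀ n, MeasurableSet (G n)) → (∀ n, G n ⊆ G (n + 1)) → (∀ ω, ∃ n, ω ∈ G n) →
  ∀ ε : ENNReal, 0 < ε → ∃ n, μ (G n)ᶜ ≤ ε

end NU
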