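import Pool.Agent.H71.NU.Stmts
import Mathlib.Probability.Kernel.CondDistrib

/-!
NU project: module WLAB: labels for a countable-to-one map (a measure theoretic form of the
Lusin–Novikov theorem): a measurable map with countable fibres becomes injective on a set of
measure almost one after adding a measurable label in `ℕ`.
-/

namespace NU

open MeasureTheory ProbabilityTheory

/-- WLAB: labels for a map with countable fibres -/
def SWlab : Prop := ∀ (Ω : Type) [MeasurableSpace Ω] [StandardBorelSpace Ω] (μ : Measure Ω)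
  [IsProbabilityMeasure μ], ∀ Λ : Ω → List ℕ → Bool, Measurable Λ →
  (∀ y, {ω | Λ ω = y}.Countable) → ∀ ε : ENNReal, 0 < ε →
  ∃ B : Set Ω, MeasurableSet B ∧ μ Bᶜ ≤ ε ∧ ∃ ψ : Ω → ℕ, Measurable ψ ∧
    ∀ ω ∈ B, ∀ ω' ∈ B, Λ ω = Λ ω' → ψ ω = ψ ω' → ω = ω'

/-- the atoms of the conditional measures -/
theorem WLAB_atom (Ω : Type) [MeasurableSpace Ω] [StandardBorelSpace Ω] [Nonempty Ω]
    (μ : Measure Ω) [IsProbabilityMeasure μ] (Λ : Ω → List ℕ → Bool) (hΛ : Measurable Λ)
    (hc : ∀ y, {ω | Λ ω = y}.Countable) :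
    ∃ η : Kernel Ω Ω, IsMarkovKernel η ∧ (∀ ω ω', Λ ω = Λ ω' → η ω = η ω') ∧
      ∀ᵐ ω ∂μ, η ω {ω} ≠ 0 := by
  set κ : Kernel (List ℕ → Bool) Ω := condDistrib id Λ μ with hκ
  have hcomp : (μ.map Λ) ⊗ₘ κ = μ.map fun ω => (Λ ω, id ω) :=
    compProd_map_condDistrib measurable_id.aemeasurable
  have : IsProbabilityMeasure (μ.map Λ) := Measure.isProbabilityMeasure_map hΛ.aemeasurable
  have hpair : Measurable fun ω : Ω => (Λ ω, id ω) := hΛ.prodMk measurable_id
  refine ⟨κ.comap Λ hΛ, inferInstance, ?_, ?_⟩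
  · intro ω ω' h
    rw [Kernel.comap_apply, Kernel.comap_apply, h]
  -- concentration on the graph
  have hG : MeasurableSet {p : (List ℕ → Bool) × Ω | Λ p.2 ≠ p.1} :=
    (measurableSet_eq_fun (hΛ.comp measurable_snd) measurable_fst).compl
  have h1 : ((μ.map Λ) ⊗ₘ κ) {p : (List ℕ → Bool) × Ω | Λ p.2 ≠ p.1} = 0 := by
    rw [hcomp, Measure.map_apply hpair hG]
    have : (fun ω : Ω => (Λ ω, id ω)) ⁻¹' {p : (List ℕ → Bool) × Ω | Λ p.2 ≠ p.1} = ∅ := by
      ext ω
      simp
    rw [this, measure_empty]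
  have h2 : ∀ᵐ y ∂(μ.map Λ), κ y {ω | Λ ω ≠ y} = 0 := by
    rw [Measure.compProd_apply hG] at h1
    have h3 := (lintegral_eq_zero_iff (Kernel.measurable_kernel_prodMk_left hG)).1 h1
    exact h3
  -- the atoms
  have hA : MeasurableSet {p : (List ℕ → Bool) × Ω | κ p.1 {p.2} = 0} := by
    set κ' : Kernel ((List ℕ → Bool) × Ω) Ω := κ.comap Prod.fst measurable_fst with hκ'
    have h3 : Measurable fun p : (List ℕ → Bool) × Ω =>
        κ' p (Prod.mk p ⁻¹' {q : ((List ℕ → Bool) × Ω) × Ω | q.2 = q.1.2}) :=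
      Kernel.measurable_kernel_prodMk_left
        (measurableSet_eq_fun measurable_snd (measurable_snd.comp measurable_fst))
    have h4 : {p : (List ℕ → Bool) × Ω | κ p.1 {p.2} = 0} = (fun p : (List ℕ → Bool) × Ω =>
        κ' p (Prod.mk p ⁻¹' {q : ((List ℕ → Bool) × Ω) × Ω | q.2 = q.1.2})) ⁻¹' {0} := by
      ext p
      have : Prod.mk p ⁻¹' {q : ((List ℕ → Bool) × Ω) × Ω | q.2 = q.1.2} = {p.2} := by
        ext ω
        simp
      simp only [Set.mem_preimage, Set.mem_singleton_iff, Set.mem_ofPred_eq, this, hκ',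
        Kernel.comap_apply]
    rw [h4]
    exact h3 (measurableSet_singleton 0)
  have h3 : ((μ.map Λ) ⊗ₘ κ) {p : (List ℕ → Bool) × Ω | κ p.1 {p.2} = 0} = 0 := by
    rw [Measure.compProd_apply hA, lintegral_eq_zero_iff (Kernel.measurable_kernel_prodMk_left hA)]
    filter_upwards [h2] with y hy
    change κ y (Prod.mk y ⁻¹' {p : (List ℕ → Bool) × Ω | κ p.1 {p.2} = 0}) = 0
    have h4 : Prod.mk y ⁻¹' {p : (List ℕ → Bool) × Ω | κ p.1 {p.2} = 0} ⊆
        {ω | Λ ω ≠ y} ∪ ({ω | Λ ω = y} ∩ {ω | κ y {ω} = 0}) := by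
      intro ω hω
      by_cases h : Λ ω = y
      · exact Or.inr ⟨h, hω⟩
      · exact Or.inl h
    refine measure_mono_null h4 (measure_union_null hy ?_)
    have h5 : ({ω | Λ ω = y} ∩ {ω | κ y {ω} = 0}).Countable := (hc y).mono Set.inter_subset_left
    rw [measure_null_iff_singleton h5]
    exact fun ω hω => hω.2
  rw [hcomp, Measure.map_apply hpair hA] at h3
  rw [ae_iff]
  simpa [Kernel.comap_apply] using h3

open Classical in
theorem sWlab (hBou : SBou) : SWlab := by
  intro Ω _ _ μ _ Λ hΛ hc ε hε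
  have : Nonempty Ω := by
    by_contra h
    rw [not_nonempty_iff] at h
    have h1 : μ Set.univ = 1 := measure_univ
    rw [Set.univ_eq_empty_iff.2 h, measure_empty] at h1
    exact zero_ne_one h1
  obtain ⟨η, hη, hηΛ, hat⟩ := WLAB_atom Ω μ Λ hΛ hc
  -- the mass of the point
  have hm2 : Measurable fun p : Ω × Ω => η p.1 {p.2} := by
    set η' : Kernel (Ω × Ω) Ω := η.comap Prod.fst measurable_fst with hη'
    have h3 : Measurable fun p : Ω × Ω =>
        η' p (Prod.mk p ⁻¹' {q : (Ω × Ω) × Ω | q.2 = q.1.2}) :=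
      Kernel.measurable_kernel_prodMk_left
        (measurableSet_eq_fun measurable_snd (measurable_snd.comp measurable_fst))
    have h4 : (fun p : Ω × Ω => η p.1 {p.2}) = fun p : Ω × Ω =>
        η' p (Prod.mk p ⁻¹' {q : (Ω × Ω) × Ω | q.2 = q.1.2}) := by
      funext p
      have : Prod.mk p ⁻¹' {q : (Ω × Ω) × Ω | q.2 = q.1.2} = {p.2} := by
        ext ω
        simp
      rw [this, hη', Kernel.comap_apply]
    rw [h4]
    exact h3
  have hm1 : Measurable fun ω : Ω => η ω {ω} := hm2.comp (measurable_id.prodMk measurable_id)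
  -- atoms of mass at least `1 / (n + 1)`
  obtain ⟨n, hn⟩ := hBou Ω μ (fun n => {ω | ((n : ENNReal) + 1)⁻¹ ≤ η ω {ω}} ∪ {ω | η ω {ω} = 0})
    (fun n => (measurableSet_le measurable_const hm1).union (hm1 (measurableSet_singleton 0)))
    (fun n ω hω => by
      rcases hω with h | h
      · have h' : ((n : ENNReal) + 1)⁻¹ ≤ η ω {ω} := h
        have h'' : (((n + 1 : ℕ) : ENNReal) + 1)⁻¹ ≤ η ω {ω} := by
          refine le_trans ?_ h'
          rw [ENNReal.inv_le_inv]
          push_cast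
          exact le_self_add
        exact Or.inl h''
      · exact Or.inr h)
    (fun ω => by
      by_cases h : η ω {ω} = 0
      · exact ⟨0, Or.inr h⟩
      · obtain ⟨n, hn⟩ := ENNReal.exists_inv_nat_lt h
        have h'' : ((n : ENNReal) + 1)⁻¹ ≤ η ω {ω} := by
          refine le_trans ?_ hn.le
          rw [ENNReal.inv_le_inv]
          exact le_self_add
        exact ⟨n, Or.inl h''⟩)
    (ε / 2) (ENNReal.half_pos hε.ne')
  set δ : ENNReal := ((n : ENNReal) + 1)⁻¹ with hδ
  have hδ0 : δ ≠ 0 := by simp [hδ]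
  -- the separating bits
  set b : Ω → ℕ → Bool := MeasurableSpace.mapNatBool Ω with hb
  have hbm : Measurable b := MeasurableSpace.measurable_mapNatBool Ω
  have hbi : Function.Injective b := MeasurableSpace.injective_mapNatBool Ω
  set t : ℕ → Set (Ω × Ω) := fun N => {p | p.2 ≠ p.1} ∩ {p | δ ≤ η p.1 {p.2}} ∩
    ⋂ i ∈ Finset.range N, {p | b p.2 i = b p.1 i} with ht
  have htm : ∀ N, MeasurableSet (t N) := by
    intro N
    refine MeasurableSet.inter (MeasurableSet.inter ?_ ?_) ?_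
    · exact (measurableSet_eq_fun measurable_snd measurable_fst).compl
    · exact measurableSet_le measurable_const hm2
    · refine Finset.measurableSet_biInter _ fun i _ => ?_
      exact measurableSet_eq_fun ((measurable_pi_apply i).comp (hbm.comp measurable_snd))
        ((measurable_pi_apply i).comp (hbm.comp measurable_fst))
  have htanti : ∀ ω, Antitone fun N => Prod.mk ω ⁻¹' t N := by
    intro ω N M hNM ω' hω'
    obtain ⟨⟨h1, h2⟩, h3⟩ := hω'
    refine ⟨⟨h1, h2⟩, ?_⟩
    rw [Set.mem_iInter₂] at h3 ⊢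
    exact fun i hi => h3 i (Finset.mem_range.2 (lt_of_lt_of_le (Finset.mem_range.1 hi) hNM))
  have htge : ∀ ω N, (Prod.mk ω ⁻¹' t N).Nonempty → δ ≤ η ω (Prod.mk ω ⁻¹' t N) := by
    rintro ω N ⟨ω', hω'⟩
    refine le_trans hω'.1.2 (measure_mono ?_)
    rintro _ rfl
    exact hω'
  have htm' : ∀ ω N, MeasurableSet (Prod.mk ω ⁻¹' t N) := fun ω N =>
    measurable_prodMk_left (htm N)
  obtain ⟨N, hN⟩ := hBou Ω μ (fun N => {ω | η ω (Prod.mk ω ⁻¹' t N) < δ})
    (fun N => measurableSet_lt (Kernel.measurable_kernel_prodMk_left (htm N)) measurable_const)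
    (fun N ω hω => lt_of_le_of_lt (measure_mono (htanti ω (Nat.le_succ N))) hω)
    (fun ω => by
      have h1 : (⋂ N, Prod.mk ω ⁻¹' t N) = ∅ := by
        rw [Set.eq_empty_iff_forall_notMem]
        intro ω' hω'
        rw [Set.mem_iInter] at hω'
        apply (hω' 0).1.1
        apply hbi
        funext i
        have h2 := (hω' (i + 1)).2
        rw [Set.mem_iInter₂] at h2
        exact h2 i (Finset.mem_range.2 (Nat.lt_succ_self i))
      have h2 := tendsto_measure_iInter_atTop (μ := η ω)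
        (fun N => (htm' ω N).nullMeasurableSet) (htanti ω) ⟨0, measure_ne_top _ _⟩
      rw [h1, measure_empty] at h2
      have h3 := (h2.eventually_lt_const (pos_iff_ne_zero.2 hδ0)).exists
      exact h3)
    (ε / 2) (ENNReal.half_pos hε.ne')
  refine ⟨{ω | δ ≤ η ω {ω}} ∩ {ω | η ω (Prod.mk ω ⁻¹' t N) < δ}, ?_, ?_,
    fun ω => Encodable.encode (fun i : Fin N => b ω i), ?_, ?_⟩
  · exact (measurableSet_le measurable_const hm1).inter
      (measurableSet_lt (Kernel.measurable_kernel_prodMk_left (htm N)) measurable_const)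
  · have h1 : ({ω | δ ≤ η ω {ω}} ∩ {ω | η ω (Prod.mk ω ⁻¹' t N) < δ})ᶜ ⊆
        ({ω | δ ≤ η ω {ω}} ∪ {ω | η ω {ω} = 0})ᶜ ∪ {ω | η ω (Prod.mk ω ⁻¹' t N) < δ}ᶜ ∪
          {ω | η ω {ω} = 0} := by
      intro ω hω
      by_cases h0 : η ω {ω} = 0
      · exact Or.inr h0
      · by_cases h2 : η ω (Prod.mk ω ⁻¹' t N) < δ
        · refine Or.inl (Or.inl fun h3 => ?_)
          rcases h3 with h3 | h3
          · exact hω ⟨h3, h2⟩
          · exact h0 h3
        · exact Or.inl (Or.inr h2)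
    have h0 : μ {ω | η ω {ω} = 0} = 0 := by
      have := ae_iff.1 hat
      simpa using this
    calc _ ≤ _ := measure_mono h1
      _ ≤ _ := measure_union_le _ _
      _ ≤ ε / 2 + ε / 2 + 0 := by
          refine add_le_add ((measure_union_le _ _).trans (add_le_add hn hN)) h0.le
      _ = ε := by rw [add_zero, ENNReal.add_halves]
  · refine Measurable.comp (g := Encodable.encode) (Measurable.of_discrete) ?_
    exact measurable_pi_lambda _ fun i => (measurable_pi_apply _).comp hbm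
  · rintro ω ⟨h1, h2⟩ ω' ⟨h1', h2'⟩ hL hψ
    by_contra hne
    have hbits := Encodable.encode_injective hψ
    have h3 : ω' ∈ Prod.mk ω ⁻¹' t N := by
      refine ⟨⟨fun h => hne h.symm, ?_⟩, ?_⟩
      · change δ ≤ η ω {ω'}
        rw [hηΛ ω ω' hL]
        exact h1'
      · rw [Set.mem_iInter₂]
        intro i hi
        exact (congrFun hbits ⟨i, Finset.mem_range.1 hi⟩).symm
    exact absurd (htge ω N ⟨ω', h3⟩) (not_le.2 h2)

end NU
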